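import Pool.Agent.MP_f6b137_pr.H74.Base

/-! Nondegeneracy and Bessel inequality for triples of evaluation vectors. -/

namespace Pool.Agent.MP_f6b137_pr.H4

open MeasureTheory Filter Polynomial Metric
open Pool.Agent.MP_f6b137_pr.H74
open scoped Real RealInnerProductSpace

lemma dslope_bd {G : ℂ → ℂ} {t : ℂ} {M : ℝ} (hG : DifferentiableOn ℂ G (ball t 1))
    (hM : ∀ z ∈ ball t 1, ‖G z‖ ≤ M) : DifferentiableOn ℂ (dslope G t) (ball t 1) ∧
      ∀ z ∈ ball t 1, ‖dslope G t z‖ ≤ 2 * M := by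
  refine ⟨(Complex.differentiableOn_dslope (ball_mem_nhds t one_pos)).2 hG, fun z hz => ?_⟩
  have := Complex.norm_dslope_le_div_of_mapsTo_ball (R₂ := 2 * M) hG (fun w hw => by
    rw [mem_closedBall, dist_eq_norm]
    linarith [norm_sub_le (G w) (G t), hM w hw, hM t (mem_ball_self one_pos)]) hz
  rwa [div_one] at this

lemma cplx {G : ℂ → ℂ} {F : ℝ → ℝ} {t h M : ℝ} (hG : Differentiable ℂ G)
    (hF : ∀ x : ℝ, G x = F x) (hM : ∀ z ∈ ball (t : ℂ) 1, ‖G z‖ ≤ M) (h0 : 0 < h) (h1 : h < 1) :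
    |F t| ≤ M ∧ |(F (t + h) - F (t - h)) / (2 * h)| ≤ 2 * M ∧
      |(F (t + h) - 2 * F t + F (t - h)) / h ^ 2| ≤ 8 * M := by
  obtain ⟨a1, a2⟩ := dslope_bd hG.differentiableOn hM
  obtain ⟨-, b2⟩ := dslope_bd a1 a2
  have m1 : ((t + h : ℝ) : ℂ) ∈ ball (t : ℂ) 1 := by
    simp [abs_of_pos h0, h1]
  have m2 : ((t - h : ℝ) : ℂ) ∈ ball (t : ℂ) 1 := by
    simp [abs_of_pos h0, h1]
  have e1 := sub_smul_dslope G t (t + h : ℝ)
  have e2 := sub_smul_dslope G t (t - h : ℝ)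
  have e3 := sub_smul_dslope (dslope G t) t (t + h : ℝ)
  have e4 := sub_smul_dslope (dslope G t) t (t - h : ℝ)
  have c1 := a2 _ m1
  have c2 := a2 _ m2
  have c3 := b2 _ m1
  have c4 := b2 _ m2
  have hh : (h : ℂ) ≠ 0 := by exact_mod_cast h0.ne'
  simp only [hF, smul_eq_mul] at e1 e2 e3 e4
  generalize dslope (dslope G t) t (t + h : ℝ) = u3 at *
  generalize dslope (dslope G t) t (t - h : ℝ) = u4 at *
  generalize dslope G t (t + h : ℝ) = u1 at *
  generalize dslope G t (t - h : ℝ) = u2 at *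
  push_cast at e1 e2 e3 e4
  refine ⟨?_, ?_, ?_⟩
  · have := hM t (mem_ball_self one_pos)
    rwa [hF, Complex.norm_real, Real.norm_eq_abs] at this
  · have : (((F (t + h) - F (t - h)) / (2 * h) : ℝ) : ℂ) = (u1 + u2) / 2 := by
      push_cast; field_simp; linear_combination e2 - e1
    rw [← Real.norm_eq_abs, ← Complex.norm_real, this, norm_div, Complex.norm_two]
    linarith [norm_add_le u1 u2]
  · have : (((F (t + h) - 2 * F t + F (t - h)) / h ^ 2 : ℝ) : ℂ) = u3 + u4 := by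
      push_cast; field_simp; linear_combination -e1 - e2 - h * e3 + h * e4
    rw [← Real.norm_eq_abs, ← Complex.norm_real, this]
    linarith [norm_add_le u3 u4]

variable {D : ℕ}

lemma inner_dd1 (K : ℝ → ES D) (lam t h : ℝ) (Y : ES D) :
    ⟪dd1 K lam t h, Y⟫ = lam * ((⟪K (t + h), Y⟫ - ⟪K (t - h), Y⟫) / (2 * h)) := by
  simp only [dd1, real_inner_smul_left, inner_sub_left]; ring

lemma inner_dd2 (K : ℝ → ES D) (lam t h : ℝ) (Y : ES D) :
    ⟪dd2 K lam t h, Y⟫ = lam * ((⟪K (t + h), Y⟫ - 2 * ⟪K t, Y⟫ + ⟪K (t - h), Y⟫) / h ^ 2) := by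
  simp only [dd2, real_inner_smul_left, inner_sub_left, inner_add_left]; ring

lemma sq_bd {lam x S c m : ℝ} (hl : lam ^ 2 = m) (hS : 0 ≤ S) (hx : |x| ≤ c * √S) :
    (lam * x) ^ 2 ≤ c ^ 2 * (m * S) := by
  have h1 := pow_le_pow_left₀ (abs_nonneg x) hx 2
  rw [sq_abs, mul_pow, Real.sq_sqrt hS] at h1
  have := mul_le_mul_of_nonneg_left h1 (sq_nonneg lam)
  rw [mul_pow, ← hl]
  linarith

variable {μ : Measure ℝ} {p : ℕ → ℝ[X]} {N n : ℕ} {φ : ℕ → ES D}

/-- upper bounds -/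
lemma upper [IsFiniteMeasure μ] {A : ℝ} (hA : 0 ≤ A) (hp : ONP μ p) (hφ : ONf φ (n + 1))
    (hN : 1 ≤ N) (hn : n ≤ 2 * N)
    (hMZ : ∀ (f : ℝ[X]), f.natDegree ≤ 2 * N → ∃ S : ℕ → ℝ,
      (∀ j < N, ∀ ζ : ℂ, ‖ζ - ctr N j‖ ≤ 2 * π / N → ‖aeval (Complex.cos ζ) f‖ ^ 2 ≤ S j) ∧
      ∑ j ∈ Finset.range N, mass μ N j * S j ≤ A * ∫ θ, f.eval (Real.cos θ) ^ 2 ∂μ) (Y : ES D) :
    ∃ u : ℕ → ℝ, (∀ j < N, 0 ≤ u j) ∧ ∑ j ∈ Finset.range N, u j ≤ A * ‖Y‖ ^ 2 ∧
      ∀ j < N, ∀ t h : ℝ, 0 < h → (j : ℝ) ≤ t - h → t + h ≤ j + 1 →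
        ⟪√(mass μ N j) • Kt p n N φ t, Y⟫ ^ 2 ≤ u j ∧
        ⟪dd1 (Kt p n N φ) √(mass μ N j) t h, Y⟫ ^ 2 ≤ 4 * u j ∧
        ⟪dd2 (Kt p n N φ) √(mass μ N j) t h, Y⟫ ^ 2 ≤ 64 * u j := by
  obtain ⟨S, h1, h2⟩ := hMZ (Pw p n φ Y) ((natDegree_Pw hp.deg n φ Y).trans hn)
  have N0 : (0 : ℝ) < N := by exact_mod_cast hN
  have pi0 := Real.pi_pos
  have S0 : ∀ j < N, 0 ≤ S j := fun j hj =>
    (sq_nonneg _).trans (h1 j hj (ctr N j) (by rw [sub_self, norm_zero]; positivity))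
  refine ⟨fun j => mass μ N j * S j, fun j hj => mul_nonneg (mass_nonneg _ _ _) (S0 j hj),
    h2.trans (mul_le_mul_of_nonneg_left (by rw [hp.int_Pw]; exact hφ.bessel Y) hA),
    fun j hj t h h0 h3 h4 => ?_⟩
  obtain ⟨a1, a2, a3⟩ := cplx (G := fun z => aeval (Complex.cos (π * z / N)) (Pw p n φ Y))
    (F := fun x => ⟪Kt p n N φ x, Y⟫) (t := t) (h := h) (M := √(S j))
    ((Pw p n φ Y).differentiable_aeval.comp (f := fun z : ℂ => Complex.cos (π * z / N))
      (by fun_prop)) (fun x => by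
      rw [inner_Kt, ← Complex.coe_algebraMap, ← aeval_algebraMap_apply_eq_algebraMap_eval]
      simp) (fun z hz => Real.le_sqrt_of_sq_le (h1 j hj _ (by
      have e : π * z / N - ctr N j = ((π / N : ℝ) : ℂ) * (z - t + ((t - (j + 1 / 2) : ℝ) : ℂ)) := by
        unfold ctr; push_cast; ring
      have b1 : ‖z - t‖ < 1 := by rwa [mem_ball, dist_eq_norm] at hz
      have b2 : ‖((t - (j + 1 / 2) : ℝ) : ℂ)‖ ≤ 1 := by
        rw [Complex.norm_real, Real.norm_eq_abs, abs_le]; constructor <;> linarith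
      have b3 := norm_add_le (z - t) ((t - (j + 1 / 2) : ℝ) : ℂ)
      rw [e, norm_mul, Complex.norm_real, Real.norm_eq_abs, abs_of_pos (by positivity),
        mul_div_assoc, mul_comm 2]
      exact mul_le_mul_of_nonneg_left (by linarith) (by positivity)))) h0 (by linarith)
  have sq1 := Real.sq_sqrt (mass_nonneg μ N j)
  rw [real_inner_smul_left, inner_dd1, inner_dd2]
  refine ⟨?_, ?_, ?_⟩
  · simpa using sq_bd (c := 1) sq1 (S0 j hj) (by rwa [one_mul])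
  · exact (sq_bd sq1 (S0 j hj) a2).trans (by norm_num)
  · exact (sq_bd sq1 (S0 j hj) a3).trans (by norm_num)

lemma norm_sq_le {v : ES D} {c : ℝ} (hc : 0 ≤ c) (h : ⟪v, v⟫ ^ 2 ≤ c * ‖v‖ ^ 2) : ‖v‖ ^ 2 ≤ c := by
  rw [real_inner_self_eq_norm_sq] at h
  by_contra h1
  push Not at h1
  nlinarith

lemma coef_le {y Y : ES D} {lam B a F : ℝ} (hl : 0 < lam) (hY : ‖Y‖ ≤ B * lam) (hF : 1 ≤ F)
    (h : ⟪y, Y⟫ = lam * (a * F)) : |a| ≤ B * ‖y‖ := by
  have h1 := abs_real_inner_le_norm y Y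
  rw [h, abs_mul, abs_mul, abs_of_pos hl, abs_of_pos (a := F) (by linarith)] at h1
  have h2 := mul_le_mul_of_nonneg_left hY (norm_nonneg y)
  have h3 : |a| * 1 ≤ |a| * F := mul_le_mul_of_nonneg_left hF (abs_nonneg a)
  refine le_of_mul_le_mul_left ?_ hl
  nlinarith

/-- lower bound from test vectors -/
lemma low_abs {K : ℝ → ES D} {lam B E t h : ℝ} (hl : 0 < lam) (hB : 0 ≤ B) (hE : 0 ≤ E) (h0 : 0 < h)
    (t0 : ∃ Y, ‖Y‖ ≤ B * lam ∧ 1 ≤ ⟪K t, Y⟫)
    (t1 : ∃ Y, ‖Y‖ ≤ B * lam ∧ ⟪K t, Y⟫ = 0 ∧ h ≤ ⟪K (t - h), Y⟫ - ⟪K (t + h), Y⟫)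
    (t2 : ∃ Y, ‖Y‖ ≤ B * lam ∧ ⟪K t, Y⟫ = 0 ∧ ⟪K (t - h), Y⟫ = 0 ∧ h ^ 2 ≤ ⟪K (t + h), Y⟫)
    (t3 : ∃ Y, ‖Y‖ ≤ B * lam ∧ ⟪K t, Y⟫ = 0 ∧ ⟪K (t + h), Y⟫ = 0 ∧ h ^ 2 ≤ ⟪K (t - h), Y⟫)
    (d1 : ‖dd1 K lam t h‖ ≤ E) (d2 : ‖dd2 K lam t h‖ ≤ E) (α β γ : ℝ) :
    (1 / (2 * (2 * B * (1 + E * B) * (1 + 2 * E * B) + 1))) ^ 2 * (α ^ 2 + β ^ 2 + γ ^ 2) ≤
      ‖α • (lam • K t) + β • dd1 K lam t h + γ • dd2 K lam t h‖ ^ 2 := by
  obtain ⟨Y0, a1, a2⟩ := t0
  obtain ⟨Y1, b1, b2, b3⟩ := t1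
  obtain ⟨Y2, c1, c2, c3, c4⟩ := t2
  obtain ⟨Y3, e1, e2, e3, e4⟩ := t3
  have g0 : |α| ≤ B * ‖α • (lam • K t)‖ := coef_le hl a1 a2 (by
    simp only [real_inner_smul_left]; ring)
  have g1 : |-β / 2| ≤ B * ‖α • (lam • K t) + β • dd1 K lam t h‖ :=
    coef_le hl b1 ((one_le_div h0).2 b3) (by
      simp only [real_inner_smul_left, inner_add_left, inner_dd1, b2]; field_simp; ring)
  have g2 : |β * h / 2 + γ| ≤ B * ‖α • (lam • K t) + β • dd1 K lam t h + γ • dd2 K lam t h‖ :=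
    coef_le hl c1 ((one_le_div (by positivity)).2 c4) (by
      simp only [real_inner_smul_left, inner_add_left, inner_dd1, inner_dd2, c2, c3]
      field_simp; ring)
  have g3 : |-(β * h / 2) + γ| ≤ B * ‖α • (lam • K t) + β • dd1 K lam t h + γ • dd2 K lam t h‖ :=
    coef_le hl e1 ((one_le_div (by positivity)).2 e4) (by
      simp only [real_inner_smul_left, inner_add_left, inner_dd1, inner_dd2, e2, e3]
      field_simp; ring)
  have n1 := norm_le_add_norm_add (α • (lam • K t)) (β • dd1 K lam t h)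
  have n2 := norm_le_add_norm_add (α • (lam • K t) + β • dd1 K lam t h) (γ • dd2 K lam t h)
  rw [norm_smul β, Real.norm_eq_abs] at n1
  rw [norm_smul γ, Real.norm_eq_abs] at n2
  have n3 := mul_le_mul_of_nonneg_left d1 (abs_nonneg β)
  have n4 := mul_le_mul_of_nonneg_left d2 (abs_nonneg γ)
  have r0 := norm_nonneg (α • (lam • K t) + β • dd1 K lam t h + γ • dd2 K lam t h)
  generalize ‖α • (lam • K t) + β • dd1 K lam t h + γ • dd2 K lam t h‖ = r at *
  generalize ‖α • (lam • K t) + β • dd1 K lam t h‖ = r1 at *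
  generalize ‖α • (lam • K t)‖ = r2 at *
  rw [abs_div, abs_neg, abs_two] at g1
  have k1 : |γ| ≤ B * r := by
    have := abs_le.1 g2
    have := abs_le.1 g3
    rw [abs_le]; constructor <;> linarith
  have EB := mul_nonneg hE hB
  have k2 : r1 ≤ (1 + E * B) * r := by linarith [mul_le_mul_of_nonneg_left k1 hE]
  have k3 : |β| ≤ 2 * B * (1 + E * B) * r := by linarith [mul_le_mul_of_nonneg_left k2 hB]
  have k4 : r2 ≤ (1 + E * B) * (1 + 2 * E * B) * r := by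
    linarith [mul_le_mul_of_nonneg_left k3 hE]
  have k5 : |α| ≤ B * (1 + E * B) * (1 + 2 * E * B) * r := by
    linarith [mul_le_mul_of_nonneg_left k4 hB]
  have p1 : 0 ≤ B * r := by positivity
  have p2 : 0 ≤ B * r * (E * B) := by positivity
  have p3 : 0 ≤ B * r * (E * B) ^ 2 := by positivity
  obtain ⟨Q, hQ⟩ : ∃ Q, Q = 2 * B * (1 + E * B) * (1 + 2 * E * B) + 1 := ⟨_, rfl⟩
  have Q0 : 0 < Q := by rw [hQ]; positivity
  have q1 : |α| ≤ Q * r := by rw [hQ]; linarith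
  have q2 : |β| ≤ Q * r := by rw [hQ]; linarith
  have q3 : |γ| ≤ Q * r := by rw [hQ]; linarith
  have s1 := pow_le_pow_left₀ (abs_nonneg _) q1 2
  have s2 := pow_le_pow_left₀ (abs_nonneg _) q2 2
  have s3 := pow_le_pow_left₀ (abs_nonneg _) q3 2
  rw [sq_abs] at s1 s2 s3
  rw [← hQ, div_pow, div_mul_eq_mul_div, div_le_iff₀ (by positivity)]
  linarith [sq_nonneg (Q * r)]

/-- geometry of the cosine on a cell -/
lemma cos_cell {j : ℕ} (h1 : 1 ≤ j) (h2 : j + 2 ≤ N) : ∃ ρ : ℝ, 0 < ρ ∧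
    (∀ a b : ℝ, (j : ℝ) ≤ a → a ≤ b → b ≤ j + 1 →
      4 / 5 * (b - a) ≤ (Real.cos (π * a / N) - Real.cos (π * b / N)) / ρ) ∧
    (∀ b : ℝ, (j : ℝ) ≤ b → b ≤ j + 1 → |π * b / N - ctr N j| ≤ π / (2 * N)) ∧
    ∀ b θ : ℝ, (j : ℝ) ≤ b → b ≤ j + 1 →
      |(Real.cos θ - Real.cos (π * b / N)) / ρ| ≤ 4 * (1 + N * |θ - ctr N j|) ^ 2 := by
  have j1 : (1 : ℝ) ≤ j := by exact_mod_cast h1
  have j2 : (j : ℝ) + 2 ≤ N := by exact_mod_cast h2
  have N0 : (0 : ℝ) < N := by linarith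
  have pi0 := Real.pi_pos
  have pi1 := Real.pi_lt_d2
  have near : ∀ b : ℝ, (j : ℝ) ≤ b → b ≤ j + 1 → |π * b / N - ctr N j| ≤ π / (2 * N) := by
    intro b b1 b2
    rw [show π * b / N - ctr N j = π / N * (b - (j + 1 / 2)) by unfold ctr; ring, abs_mul,
      abs_of_pos (by positivity), show π / (2 * N) = π / N * (1 / 2) by field_simp]
    exact mul_le_mul_of_nonneg_left (abs_le.2 ⟨by linarith, by linarith⟩) (by positivity)
  have jord : ∀ x : ℝ, 0 ≤ x → x ≤ N / 2 → 2 * x / N ≤ Real.sin (π * x / N) := by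
    intro x x1 x2
    refine le_trans (le_of_eq (by field_simp)) (Real.mul_le_sin (by positivity) ?_)
    rw [div_le_iff₀ N0]; nlinarith
  have s1 : 3 / N ≤ Real.sin (ctr N j) := by
    rcases le_total ((j : ℝ) + 1 / 2) (N / 2) with h | h
    · refine le_trans (div_le_div_of_nonneg_right (by linarith) N0.le)
        ((jord _ (by linarith) h).trans (le_of_eq ?_))
      rw [ctr, mul_comm]
    · refine le_trans (div_le_div_of_nonneg_right (by linarith) N0.le)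
        ((jord (N - (j + 1 / 2)) (by linarith) (by linarith)).trans (le_of_eq ?_))
      rw [← Real.sin_pi_sub, ctr]
      congr 1
      field_simp
      ring
  have s2 : π / (2 * N) ≤ 8 / 5 * (1 / N) := by
    rw [div_le_iff₀ (by positivity)]; field_simp; linarith
  have s3 : (3 : ℝ) / N = 3 * (1 / N) := by ring
  have i0 : (0 : ℝ) < 1 / N := by positivity
  obtain ⟨σ, hσ⟩ : ∃ σ, σ = Real.sin (ctr N j) := ⟨_, rfl⟩
  rw [← hσ] at s1
  have σ0 : 0 < σ := by linarith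
  refine ⟨σ / N, by positivity, fun a b a1 a2 a3 => ?_, near, fun b θ b1 b2 => ?_⟩
  · rw [le_div_iff₀ (by positivity), Real.cos_sub_cos,
      show (π * a / N - π * b / N) / 2 = -(π * ((b - a) / 2) / N) by ring, Real.sin_neg,
      show (π * a / N + π * b / N) / 2 = π * ((a + b) / 2) / N by ring]
    have c1 := jord ((b - a) / 2) (by linarith) (by linarith)
    have c2 := (Real.abs_sin_sub_sin_le _ _).trans (near ((a + b) / 2) (by linarith) (by linarith))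
    rw [← hσ] at c2
    have c3 : 2 / 5 * σ ≤ Real.sin (π * ((a + b) / 2) / N) := by linarith [(abs_le.1 c2).1]
    have c4 := mul_le_mul c3 c1 (div_nonneg (by linarith) N0.le) (by linarith)
    refine le_trans (le_of_eq (by ring)) ((mul_le_mul_of_nonneg_left c4 zero_le_two).trans
      (le_of_eq (by ring)))
  · have c0 := near b b1 b2
    obtain ⟨w, hw⟩ : ∃ w, w = N * |θ - ctr N j| := ⟨_, rfl⟩
    have w0 : 0 ≤ w := by rw [hw]; positivity
    have w1 : |θ - ctr N j| = w * (1 / N) := by rw [hw]; field_simp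
    have w2 := mul_nonneg w0 i0.le
    have c1 : |Real.sin ((θ - π * b / N) / 2)| ≤ (1 + w) * (1 / N) := by
      refine Real.abs_sin_le_abs.trans ?_
      have := abs_sub_le θ (ctr N j) (π * b / N)
      rw [abs_sub_comm (ctr N j)] at this
      rw [abs_div, abs_two]
      linarith
    have c2 : |Real.sin ((θ + π * b / N) / 2)| ≤ 2 * σ * (1 + w) := by
      have d1 := Real.abs_sin_sub_sin_le ((θ + π * b / N) / 2) (ctr N j)
      have d2 := abs_add_le (θ - ctr N j) (π * b / N - ctr N j)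
      rw [← hσ, show (θ + π * b / N) / 2 - ctr N j =
        (θ - ctr N j + (π * b / N - ctr N j)) / 2 by ring, abs_div _ 2, abs_two] at d1
      have d3 := abs_sub_abs_le_abs_sub (Real.sin ((θ + π * b / N) / 2)) σ
      rw [abs_of_pos σ0] at d3
      have d4 := mul_le_mul_of_nonneg_left s1 w0
      nlinarith
    rw [← hw, abs_div, abs_of_pos (a := σ / N) (by positivity), div_le_iff₀ (by positivity),
      Real.cos_sub_cos, abs_mul, abs_mul, abs_neg, abs_two, mul_assoc]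
    have c4 := mul_le_mul c2 c1 (abs_nonneg _) (by positivity)
    refine (mul_le_mul_of_nonneg_left c4 zero_le_two).trans (le_of_eq (by ring))

/-- test vectors -/
lemma test [IsFiniteMeasure μ] (hs : μ (Set.Icc 0 π)ᶜ = 0) (hp : ONP μ p) (hφ : ONf φ (n + 1))
    {g q : ℝ[X]} {A c m : ℝ} (hA : 0 ≤ A) (hg : g.natDegree + 2 ≤ n) (hq : q.natDegree ≤ 2)
    (hI : ∫ θ, g.eval (Real.cos θ) ^ 2 * (1 + N * |θ - c|) ^ 8 ∂μ ≤ A * m)
    (hb : ∀ θ, |q.eval (Real.cos θ)| ≤ 16 * (1 + N * |θ - c|) ^ 4) :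
    ∃ Y : ES D, ‖Y‖ ≤ 16 * √A * √m ∧ ∀ τ, ⟪Kt p n N φ τ, Y⟫ =
      g.eval (Real.cos (π * τ / N)) * q.eval (Real.cos (π * τ / N)) := by
  obtain ⟨Y, h1, h2⟩ := hp.exists_test hφ (g * q) (natDegree_mul_le.trans (by omega))
  refine ⟨Y, ?_, fun τ => by rw [inner_Kt, h1, eval_mul]⟩
  have hi : Integrable (fun θ => g.eval (Real.cos θ) ^ 2 * (1 + N * |θ - c|) ^ 8) μ := by
    rw [← Measure.restrict_eq_self_of_ae_mem (μ := μ) (s := Set.Icc 0 π) hs]
    refine ContinuousOn.integrableOn_compact isCompact_Icc (Continuous.continuousOn ?_)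
    have := g.continuous
    fun_prop
  have h3 : ‖Y‖ ^ 2 ≤ 256 * (A * m) := by
    rw [h2]
    refine le_trans (integral_mono_of_nonneg (Eventually.of_forall fun θ => sq_nonneg _)
      (hi.const_mul 256) (Eventually.of_forall fun θ => ?_)) ?_
    · have a1 := pow_le_pow_left₀ (abs_nonneg _) (hb θ) 2
      rw [sq_abs] at a1
      have a2 := mul_le_mul_of_nonneg_left a1 (sq_nonneg (g.eval (Real.cos θ)))
      simp only [eval_mul]
      linarith
    · rw [integral_const_mul]; linarith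
  refine (Real.le_sqrt_of_sq_le h3).trans (le_of_eq ?_)
  rw [Real.sqrt_mul (by norm_num), Real.sqrt_mul hA,
    show (256 : ℝ) = 16 ^ 2 by norm_num, Real.sqrt_sq (by norm_num), mul_assoc]

/-- the linear factor vanishing at a given point -/
noncomputable def lin (ρ x : ℝ) : ℝ[X] := C ρ⁻¹ * (X - C x)

lemma eval_lin (ρ x y : ℝ) : (lin ρ x).eval y = (y - x) / ρ := by
  simp [lin, div_eq_inv_mul]

lemma deg_lin (ρ x : ℝ) : (lin ρ x).natDegree ≤ 1 :=
  (natDegree_C_mul_le _ _).trans (natDegree_X_sub_C_le x)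

theorem rowWH : OfWH := by
  intro hMZ hPK μ C₀ s p hD hp
  have := hD.fin
  obtain ⟨A, hA, hMZ⟩ := hMZ μ C₀ s hD
  obtain ⟨A', N₀, hA', hPK⟩ := hPK μ C₀ s hD
  obtain ⟨B, hB⟩ : ∃ B, B = 16 * √A' := ⟨_, rfl⟩
  obtain ⟨E, hE⟩ : ∃ E, E = 8 * √A := ⟨_, rfl⟩
  have B0 : 0 ≤ B := by rw [hB]; positivity
  have E0 : 0 ≤ E := by rw [hE]; positivity
  obtain ⟨κ, hκ⟩ : ∃ κ, κ = 1 / (2 * (2 * B * (1 + E * B) * (1 + 2 * E * B) + 1)) := ⟨_, rfl⟩
  have κ0 : 0 < κ := by rw [hκ]; positivity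
  have Aκ : 0 ≤ 69 / κ ^ 2 * A := by positivity
  refine ⟨κ, E + 69 / κ ^ 2 * A, max N₀ 1, κ0, by positivity, fun N n D φ hN hR hφ => ?_⟩
  have N1 : 1 ≤ N := (le_max_right _ _).trans hN
  have up := upper hA hp hφ N1 hR.2 fun f hf => hMZ N f N1 hf
  have low : ∀ j : ℕ, 1 ≤ j → j + 2 ≤ N → ∀ t h : ℝ, 0 < h → (j : ℝ) ≤ t - h → t + h ≤ j + 1 →
      (∀ α β γ : ℝ, κ ^ 2 * (α ^ 2 + β ^ 2 + γ ^ 2) ≤ ‖α • (√(mass μ N j) • Kt p n N φ t) +
        β • dd1 (Kt p n N φ) √(mass μ N j) t h + γ • dd2 (Kt p n N φ) √(mass μ N j) t h‖ ^ 2) ∧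
      ‖dd2 (Kt p n N φ) √(mass μ N j) t h‖ ≤ E := by
    intro j j1 j2 t h h0 h1 h2
    have jN : j < N := by omega
    have nb : ∀ v : ES D, (∀ u : ℕ → ℝ, 0 ≤ u j → (⟪√(mass μ N j) • Kt p n N φ t, v⟫ ^ 2 ≤ u j ∧
        ⟪dd1 (Kt p n N φ) √(mass μ N j) t h, v⟫ ^ 2 ≤ 4 * u j ∧
        ⟪dd2 (Kt p n N φ) √(mass μ N j) t h, v⟫ ^ 2 ≤ 64 * u j) → ⟪v, v⟫ ^ 2 ≤ 64 * u j) →
        ‖v‖ ≤ E := by
      intro v hv
      obtain ⟨u, u1, u2, u3⟩ := up v
      have a1 := Finset.single_le_sum (f := u) (fun i hi => u1 i (Finset.mem_range.1 hi))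
        (Finset.mem_range.2 jN)
      have a2 := norm_sq_le (v := v) (c := 64 * A) (by positivity)
        (by linarith [hv u (u1 j jN) (u3 j jN t h h0 h1 h2)])
      refine (Real.le_sqrt_of_sq_le a2).trans (le_of_eq ?_)
      rw [Real.sqrt_mul (by norm_num), show (64 : ℝ) = 8 ^ 2 by norm_num,
        Real.sqrt_sq (by norm_num), hE]
    have d2 := nb _ fun u _ hu => hu.2.2
    refine ⟨?_, d2⟩
    obtain ⟨g, g1, g2, g3⟩ := hPK N j ((le_max_left _ _).trans hN) jN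
    obtain ⟨ρ, ρ0, c1, c2, c3⟩ := cos_cell j1 j2
    have ts := fun q hq hb => test (N := N) (q := q) hD.supp hp hφ hA'
      (show g.natDegree + 2 ≤ n by have := hR.1; omega) hq g3 hb
    rw [← hB] at ts
    have w1 : ∀ θ : ℝ, 1 ≤ (1 + N * |θ - ctr N j|) ^ 2 := fun θ =>
      one_le_pow₀ (le_add_of_nonneg_right (by positivity))
    have ts2 := fun (a b : ℝ) (a1 : (j : ℝ) ≤ a) (a2 : a ≤ j + 1) (b1 : (j : ℝ) ≤ b)
      (b2 : b ≤ j + 1) => ts (lin ρ (Real.cos (π * a / N)) * lin ρ (Real.cos (π * b / N)))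
      (natDegree_mul_le.trans (add_le_add (deg_lin _ _) (deg_lin _ _))) fun θ => by
        rw [eval_mul, eval_lin, eval_lin, abs_mul]
        exact (mul_le_mul (c3 a θ a1 a2) (c3 b θ b1 b2) (abs_nonneg _) (by positivity)).trans
          (le_of_eq (by ring))
    have G0 := g2 _ (c2 t (by linarith) (by linarith))
    have G1 := g2 _ (c2 (t + h) (by linarith) (by linarith))
    have G2 := g2 _ (c2 (t - h) (by linarith) (by linarith))
    have L1 := c1 t (t + h) (by linarith) (by linarith) h2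
    have L2 := c1 (t - h) t h1 (by linarith) (by linarith)
    have L3 := c1 (t - h) (t + h) h1 (by linarith) h2
    rw [hκ]
    refine low_abs (Real.sqrt_pos.2 (hD.mass_pos jN)) B0 E0 h0 ?_ ?_ ?_ ?_
      (nb _ fun u u0 hu => by linarith [hu.2.1]) d2
    · obtain ⟨Y, y1, y2⟩ := ts 1 (by simp) fun θ => by
        have := w1 θ
        rw [eval_one, abs_one]; nlinarith
      exact ⟨Y, y1, by rwa [y2, eval_one, mul_one]⟩
    · obtain ⟨Y, y1, y2⟩ := ts (lin ρ (Real.cos (π * t / N))) ((deg_lin _ _).trans one_le_two)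
        fun θ => by
          have := w1 θ
          rw [eval_lin]
          exact (c3 t θ (by linarith) (by linarith)).trans (by nlinarith)
      refine ⟨Y, y1, by simp [y2, eval_lin], ?_⟩
      rw [y2, y2, eval_lin, eval_lin, ← neg_sub (Real.cos (π * t / N)) (Real.cos (π * (t + h) / N)),
        neg_div]
      nlinarith [mul_le_mul G1 L1 (by linarith) (by linarith),
        mul_le_mul G2 L2 (by linarith) (by linarith)]
    · obtain ⟨Y, y1, y2⟩ := ts2 t (t - h) (by linarith) (by linarith) h1 (by linarith)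
      refine ⟨Y, y1, by simp [y2, eval_lin], by simp [y2, eval_lin], ?_⟩
      rw [y2, eval_mul, eval_lin, eval_lin, ← neg_sub (Real.cos (π * t / N)),
        ← neg_sub (Real.cos (π * (t - h) / N)), neg_div, neg_div, neg_mul_neg]
      nlinarith [mul_le_mul G1 (mul_le_mul L1 L3 (by linarith) (by linarith))
        (by nlinarith) (by linarith)]
    · obtain ⟨Y, y1, y2⟩ := ts2 t (t + h) (by linarith) (by linarith) (by linarith) h2
      refine ⟨Y, y1, by simp [y2, eval_lin], by simp [y2, eval_lin], ?_⟩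
      rw [y2, eval_mul, eval_lin, eval_lin]
      nlinarith [mul_le_mul G2 (mul_le_mul L2 L3 (by linarith) (by linarith))
        (by nlinarith) (by linarith)]
  refine ⟨fun t ht => ?_, fun j j1 j2 => ⟨_, Real.sqrt_pos.2 (hD.mass_pos (by omega)),
    fun t h h0 h1 h2 => ⟨(low j j1 j2 t h h0 h1 h2).1,
      (low j j1 j2 t h h0 h1 h2).2.trans (by linarith)⟩⟩, fun ι J cell t h L hJ hL α β γ => ?_⟩
  · have a1 := hφ.inner_sum (S := Finset.range (n + 1)) (fun i hi => Finset.mem_range.1 hi)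
      (fun k => (p k).eval (Real.cos (π * t / N))) (Nat.succ_pos n)
    rw [if_pos (by simp), ← Kt, ht, inner_zero_right, eq_C_of_natDegree_eq_zero (hp.deg 0),
      eval_C] at a1
    exact hp.ne_zero 0 (by rw [eq_C_of_natDegree_eq_zero (hp.deg 0), ← a1, C_0])
  · beta_reduce
    set y := fun i => α i • Kt p n N φ (t i - h i) + β i • Kt p n N φ (t i) +
      γ i • Kt p n N φ (t i + h i) with hy
    obtain ⟨u, u1, u2, u3⟩ := up (∑ i ∈ J, y i)
    have cN : ∀ i ∈ J, cell i < N := fun i hi => by have := (hJ i hi).2.1; omega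
    have a1 := Finset.sum_sq_le_sum_mul_sum_of_sq_le_mul J (r := fun i => ⟪y i, ∑ i ∈ J, y i⟫)
      (f := fun i => ‖y i‖ ^ 2) (g := fun i => 69 / κ ^ 2 * u (cell i)) (fun _ _ => sq_nonneg _)
      (fun i hi => mul_nonneg (by positivity) (u1 _ (cN i hi))) fun i hi => by
        obtain ⟨j1, j2, h0, h1, h2⟩ := hJ i hi
        obtain ⟨b1, b2, b3⟩ := u3 _ (cN i hi) _ _ h0 h1 h2
        have l0 := (Real.sqrt_pos.2 (hD.mass_pos (cN i hi))).ne'
        have b4 := (low _ j1 j2 _ _ h0 h1 h2).1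
        generalize √(mass μ N (cell i)) = lam at b1 b2 b3 b4 l0
        have e : y i = ((α i + β i + γ i) / lam) • (lam • Kt p n N φ (t i)) +
            ((γ i - α i) * h i / lam) • dd1 (Kt p n N φ) lam (t i) (h i) +
            ((α i + γ i) * h i ^ 2 / (2 * lam)) • dd2 (Kt p n N φ) lam (t i) (h i) := by
          have := h0.ne'
          simp only [hy, dd1, dd2]
          match_scalars <;> field_simp <;> ring
        have b5 := b4 ((α i + β i + γ i) / lam) ((γ i - α i) * h i / lam)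
          ((α i + γ i) * h i ^ 2 / (2 * lam))
        rw [← e] at b5
        generalize ∑ i ∈ J, y i = Y at b1 b2 b3 ⊢
        generalize ‖y i‖ ^ 2 = r at b5 ⊢
        rw [e, inner_add_left, inner_add_left, real_inner_smul_left _ _ (_ / lam),
          real_inner_smul_left (dd1 _ _ _ _), real_inner_smul_left (dd2 _ _ _ _)]
        generalize (α i + β i + γ i) / lam = a at *
        generalize (γ i - α i) * h i / lam = b at *
        generalize (α i + γ i) * h i ^ 2 / (2 * lam) = c at *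
        generalize ⟪lam • Kt p n N φ (t i), Y⟫ = x1 at *
        generalize ⟪dd1 (Kt p n N φ) lam (t i) (h i), Y⟫ = x2 at *
        generalize ⟪dd2 (Kt p n N φ) lam (t i) (h i), Y⟫ = x3 at *
        have b6 : (a * x1 + b * x2 + c * x3) ^ 2 ≤
            (a ^ 2 + b ^ 2 + c ^ 2) * (x1 ^ 2 + x2 ^ 2 + x3 ^ 2) := by
          nlinarith [sq_nonneg (a * x2 - b * x1), sq_nonneg (a * x3 - c * x1),
            sq_nonneg (b * x3 - c * x2)]
        have b7 : a ^ 2 + b ^ 2 + c ^ 2 ≤ r / κ ^ 2 := by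
          rw [le_div_iff₀ (by positivity)]; linarith
        refine (b6.trans (mul_le_mul (d := 69 * u (cell i)) b7 (by linarith) (by positivity)
          (le_trans (by positivity) b7))).trans (le_of_eq (by ring))
    have a2 : ∑ i ∈ J, u (cell i) ≤ L * (A * ‖∑ i ∈ J, y i‖ ^ 2) := by
      rw [← Finset.sum_fiberwise_of_maps_to' (t := Finset.range N)
        (fun i hi => Finset.mem_range.2 (cN i hi)) u]
      refine le_trans ?_ (mul_le_mul_of_nonneg_left u2 (Nat.cast_nonneg L))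
      rw [Finset.mul_sum]
      refine Finset.sum_le_sum fun j hj => ?_
      rw [Finset.sum_const, nsmul_eq_mul]
      exact mul_le_mul_of_nonneg_right (by exact_mod_cast hL j) (u1 j (Finset.mem_range.1 hj))
    have a3 : 0 ≤ ∑ i ∈ J, ‖y i‖ ^ 2 := Finset.sum_nonneg fun _ _ => sq_nonneg _
    rw [← sum_inner, ← Finset.mul_sum] at a1
    have a4 := norm_sq_le (v := ∑ i ∈ J, y i) (c := 69 / κ ^ 2 * A * L * ∑ i ∈ J, ‖y i‖ ^ 2)
      (by positivity) (a1.trans ((mul_le_mul_of_nonneg_left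
        (mul_le_mul_of_nonneg_left a2 (by positivity)) a3).trans (le_of_eq (by ring))))
    refine a4.trans (mul_le_mul_of_nonneg_right
      (mul_le_mul_of_nonneg_right (by linarith) (Nat.cast_nonneg L)) a3)

end Pool.Agent.MP_f6b137_pr.H4
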